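import Pool.Agent.RDO.Stmts

/-!
Row DOM of table rdo: the distance to the nearest centre is dominated by the distance to the centre in
one disc (from Kneser's lemma, row KNE).
-/

set_option autoImplicit false

open MeasureTheory Module Submodule
open scoped ENNReal Pointwise

namespace Pool.Agent.RDO.H77

theorem un_meas {n : ℕ} (c : Fin n → P2) : MeasurableSet (Un c) :=
  MeasurableSet.iUnion fun _ => measurableSet_closedBall

theorem un_fin {n : ℕ} (c : Fin n → P2) : volume (Un c) ≠ ∞ := by
  refine (lt_of_le_of_lt (measure_iUnion_le _) ?_).ne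
  rw [tsum_fintype]
  exact ENNReal.sum_lt_top.2 fun i _ => measure_closedBall_lt_top

theorem vol_one : volume (Metric.closedBall (0 : P2) 1) = ENNReal.ofReal Real.pi := by
  rw [EuclideanSpace.volume_closedBall_fin_two]
  simp

/-- the part of the unit disc outside the disc of radius `a` -/
theorem vol_out (a : ℝ) (h0 : 0 ≤ a) (h1 : a ≤ 1) :
    volume {x : P2 | x ∈ Metric.closedBall (0 : P2) 1 ∧ a < ‖x‖} =
      ENNReal.ofReal ((1 - a ^ 2) * Real.pi) := by
  have h : {x : P2 | x ∈ Metric.closedBall (0 : P2) 1 ∧ a < ‖x‖} =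
      Metric.closedBall (0 : P2) 1 \ Metric.closedBall (0 : P2) a := by
    ext x
    simp only [Set.mem_ofPred_eq, Set.mem_sdiff, mem_closedBall_zero_iff, not_le]
  rw [h, measure_sdiff (Metric.closedBall_subset_closedBall h1)
    measurableSet_closedBall.nullMeasurableSet measure_closedBall_lt_top.ne, vol_one,
    EuclideanSpace.volume_closedBall_fin_two, ← ENNReal.ofReal_pow h0,
    ← ENNReal.ofReal_mul (by positivity), ← ENNReal.ofReal_sub _ (by positivity)]
  congr 1
  ring

theorem key (hkne : KneStmt) {n : ℕ} (c : Fin n → P2) (k : P2 → Fin n) (hk : Near c k) (a : ℝ) :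
    ENNReal.ofReal Real.pi * volume {z | z ∈ Un c ∧ a ≤ dist z (c (k z))} ≤
      volume (Un c) * volume {x : P2 | x ∈ Metric.closedBall (0 : P2) 1 ∧ a < ‖x‖} := by
  rcases lt_or_ge 1 a with h1 | h1
  · have h : {z | z ∈ Un c ∧ a ≤ dist z (c (k z))} = ∅ := by
      ext z
      simp only [Set.mem_ofPred_eq, Set.mem_empty_iff_false, iff_false, not_and, not_le]
      intro hz
      obtain ⟨i, hi⟩ := Set.mem_iUnion.1 hz
      have h2 := hk.near z i
      rw [Metric.mem_closedBall] at hi
      linarith
    rw [h]
    simp
  · rcases le_or_gt a 0 with h0 | h0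
    · have h2 : ENNReal.ofReal Real.pi ≤
          volume {x : P2 | x ∈ Metric.closedBall (0 : P2) 1 ∧ a < ‖x‖} := by
        have h3 := vol_out 0 le_rfl zero_le_one
        have h4 : ENNReal.ofReal ((1 - 0 ^ 2) * Real.pi) = ENNReal.ofReal Real.pi := by norm_num
        rw [h4] at h3
        rw [← h3]
        exact measure_mono fun x hx => ⟨hx.1, lt_of_le_of_lt h0 hx.2⟩
      calc ENNReal.ofReal Real.pi * volume {z | z ∈ Un c ∧ a ≤ dist z (c (k z))}
          ≤ ENNReal.ofReal Real.pi * volume (Un c) := by
            gcongr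
            exact fun x hx => hx.1
        _ = volume (Un c) * ENNReal.ofReal Real.pi := mul_comm _ _
        _ ≤ _ := by gcongr
    · rw [vol_out a h0.le h1]
      set A : Set P2 := {z | z ∈ Un c ∧ a ≤ dist z (c (k z))} with hA
      have hAf : volume A ≠ ∞ :=
        ((measure_mono (fun x hx => hx.1)).trans_lt (un_fin c).lt_top).ne
      have hmain : ∀ r ∈ Set.Ico 0 a, r ^ 2 * (volume (Un c)).toReal + (volume A).toReal ≤
          (volume (Un c)).toReal := by
        intro r hr
        have h3 := hkne n c r hr.1 (hr.2.le.trans h1)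
        have h4 : (⋃ i, Metric.closedBall (c i) r) ⊆ Un c :=
          Set.iUnion_mono fun i => Metric.closedBall_subset_closedBall (hr.2.le.trans h1)
        have h5 : A ⊆ Un c \ ⋃ i, Metric.closedBall (c i) r := by
          intro z hz
          refine ⟨hz.1, fun hz' => ?_⟩
          obtain ⟨i, hi⟩ := Set.mem_iUnion.1 hz'
          rw [Metric.mem_closedBall] at hi
          have h6 := hk.near z i
          have h7 := hz.2
          have h8 := hr.2
          linarith
        have h6 : ENNReal.ofReal (r ^ 2) * volume (Un c) + volume A ≤ volume (Un c) := by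
          calc ENNReal.ofReal (r ^ 2) * volume (Un c) + volume A
              ≤ volume (⋃ i, Metric.closedBall (c i) r) +
                volume (Un c \ ⋃ i, Metric.closedBall (c i) r) := by
                gcongr
            _ = volume (Un c) := by
                rw [measure_add_sdiff
                  (MeasurableSet.iUnion fun _ => measurableSet_closedBall).nullMeasurableSet,
                  Set.union_eq_right.2 h4]
        have h7 := ENNReal.toReal_mono (un_fin c) h6
        rw [ENNReal.toReal_add (ENNReal.mul_ne_top ENNReal.ofReal_ne_top (un_fin c)) hAf,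
          ENNReal.toReal_mul, ENNReal.toReal_ofReal (by positivity)] at h7
        exact h7
      have hcl : IsClosed {r : ℝ | r ^ 2 * (volume (Un c)).toReal + (volume A).toReal ≤
          (volume (Un c)).toReal} := isClosed_le (by fun_prop) (by fun_prop)
      have hmem : a ∈ {r : ℝ | r ^ 2 * (volume (Un c)).toReal + (volume A).toReal ≤
          (volume (Un c)).toReal} := by
        apply hcl.closure_subset_iff.2 hmain
        rw [closure_Ico h0.ne]
        exact ⟨h0.le, le_rfl⟩
      have hfin : (volume A).toReal * Real.pi ≤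
          (volume (Un c)).toReal * ((1 - a ^ 2) * Real.pi) := by
        have h8 : (volume A).toReal ≤ (volume (Un c)).toReal * (1 - a ^ 2) := by
          have h9 : a ^ 2 * (volume (Un c)).toReal + (volume A).toReal ≤
            (volume (Un c)).toReal := hmem
          nlinarith
        nlinarith [Real.pi_pos]
      rw [← ENNReal.ofReal_toReal hAf, ← ENNReal.ofReal_toReal (un_fin c),
        ← ENNReal.ofReal_mul Real.pi_pos.le, ← ENNReal.ofReal_mul ENNReal.toReal_nonneg]
      apply ENNReal.ofReal_le_ofReal
      linarith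

/-- the inequality for upper sets -/
theorem key_up (hkne : KneStmt) {n : ℕ} (c : Fin n → P2) (k : P2 → Fin n) (hk : Near c k)
    (U : Set ℝ) (hU : IsUpperSet U) :
    ENNReal.ofReal Real.pi * volume {z | z ∈ Un c ∧ dist z (c (k z)) ∈ U} ≤
      volume (Un c) * volume {x : P2 | x ∈ Metric.closedBall (0 : P2) 1 ∧ ‖x‖ ∈ U} := by
  by_cases hne : U.Nonempty
  · by_cases hb : BddBelow U
    · have h1 : ∀ u ∈ U, sInf U ≤ u := fun u hu => csInf_le hb hu
      have h2 : ∀ u, sInf U < u → u ∈ U := by
        intro u hu
        obtain ⟨v, hv, hvu⟩ := exists_lt_of_csInf_lt hne hu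
        exact hU hvu.le hv
      calc ENNReal.ofReal Real.pi * volume {z | z ∈ Un c ∧ dist z (c (k z)) ∈ U}
          ≤ ENNReal.ofReal Real.pi * volume {z | z ∈ Un c ∧ sInf U ≤ dist z (c (k z))} := by
            gcongr
            exact fun h => h1 _ h
        _ ≤ _ := key hkne c k hk (sInf U)
        _ ≤ _ := by
            gcongr
            exact fun h => h2 _ h
    · have hall : ∀ u, u ∈ U := by
        intro u
        rw [not_bddBelow_iff] at hb
        obtain ⟨v, hv, hvu⟩ := hb u
        exact hU hvu.le hv
      have h1 : {z | z ∈ Un c ∧ dist z (c (k z)) ∈ U} = Un c := by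
        ext z
        exact ⟨fun h => h.1, fun h => ⟨h, hall _⟩⟩
      have h2 : {x : P2 | x ∈ Metric.closedBall (0 : P2) 1 ∧ ‖x‖ ∈ U} =
          Metric.closedBall (0 : P2) 1 := by
        ext z
        exact ⟨fun h => h.1, fun h => ⟨h, hall _⟩⟩
      rw [h1, h2, vol_one, mul_comm]
  · rw [Set.not_nonempty_iff_eq_empty] at hne
    subst hne
    simp

/-- DOM. -/
theorem dom (hkne : KneStmt) : DomStmt := by
  intro n c k hk Ψ hΨ hpos
  have hm1 : Measurable fun z : P2 => dist z (c (k z)) :=
    measurable_id.dist ((measurable_of_finite c).comp hk.meas)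
  rw [lintegral_eq_lintegral_meas_lt (volume.restrict (Un c))
      (Filter.Eventually.of_forall fun z => hpos _) (hΨ.measurable.comp hm1).aemeasurable,
    lintegral_eq_lintegral_meas_lt (volume.restrict (Metric.closedBall (0 : P2) 1))
      (Filter.Eventually.of_forall fun z => hpos _) (hΨ.measurable.comp measurable_norm).aemeasurable,
    ← lintegral_const_mul' _ _ ENNReal.ofReal_ne_top, ← lintegral_const_mul' _ _ (un_fin c)]
  apply lintegral_mono
  intro t
  have hU : IsUpperSet {u | t < Ψ u} := fun u v huv hu => lt_of_lt_of_le hu (hΨ huv)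
  have h := key_up hkne c k hk _ hU
  have h1 : (volume.restrict (Un c)) {z | t < Ψ (dist z (c (k z)))} =
      volume {z | z ∈ Un c ∧ dist z (c (k z)) ∈ {u | t < Ψ u}} := by
    rw [Measure.restrict_apply' (un_meas c)]
    congr 1
    ext z
    exact and_comm
  have h2 : (volume.restrict (Metric.closedBall (0 : P2) 1)) {x | t < Ψ ‖x‖} =
      volume {x : P2 | x ∈ Metric.closedBall (0 : P2) 1 ∧ ‖x‖ ∈ {u | t < Ψ u}} := by
    rw [Measure.restrict_apply' measurableSet_closedBall]
    congr 1
    ext z
    exact and_comm
  show _ * (volume.restrict (Un c)) {z | t < Ψ (dist z (c (k z)))} ≤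
    _ * (volume.restrict (Metric.closedBall (0 : P2) 1)) {x | t < Ψ ‖x‖}
  rw [h1, h2]
  exact h

end Pool.Agent.RDO.H77
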